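import Pool.Agent.H20.FI.Cnt

/-! CN3: a regular orbit of `D` if `|D / U| = 9`. -/

open scoped Classical
open FI

namespace Pool.Agent.H20.FI

theorem pf_CN3 (h1 : T_FPT) (h2 : T_CST) (h3 : T_LIN) (h4 : T_PRD) : T_CN3 := by
  intro R V K _ _ _ _ _ ρ U D _ _ _ j hρ h hQ hn
  have hexp : ∀ a ∈ D, a ^ 3 ∈ U := by
    intro a ha
    have g1 := pow_relIndex_mem hQ.nU ha
    rw [hn] at g1
    exact hQ.sqf 3 (by norm_num) a ha g1
  have hU3 : 3 ≤ Nat.card U :=
    Nat.le_of_dvd Nat.card_pos (h4 R U D hQ 3 (by norm_num) (by rw [hn]; norm_num))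
  have hK : 4 ≤ Nat.card K := by
    have g1 := Nat.card_le_card_of_injective j (j_inj hρ h)
    have g2 := Nat.card_units K
    omega
  have hf : 3 ≤ Module.finrank K V := by
    have g1 := h3 R V K ρ U D j hρ h hQ
    rw [hn] at g1
    by_contra hcon
    have g2 : Module.finrank K V ≤ 2 := by omega
    have g3 := Nat.mul_le_mul g2 g2
    omega
  have hV : 64 ≤ Nat.card V := by
    have : Module.Finite K V := Module.Finite.of_finite
    rw [Module.natCard_eq_pow_finrank (K := K)]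
    calc 64 = 4 ^ 3 := by norm_num
      _ ≤ Nat.card K ^ 3 := Nat.pow_le_pow_left hK 3
      _ ≤ Nat.card K ^ Module.finrank K V := Nat.pow_le_pow_right (by omega) hf
  by_contra hcon
  have hm : ∀ x : V, x ≠ 0 → 3 ≤ Nat.card (D ⊓ St ρ x : Subgroup R) := by
    intro x hx
    have g1 := Dx_dvd hρ h hQ hx
    rw [hn] at g1
    have g2 : Nat.card (D ⊓ St ρ x : Subgroup R) ≠ 1 := by
      intro g3
      exact hcon ⟨x, hx, Subgroup.card_eq_one.1 g3⟩
    have g3 : 0 < Nat.card (D ⊓ St ρ x : Subgroup R) := Nat.card_pos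
    by_contra g4
    have g5 : Nat.card (D ⊓ St ρ x : Subgroup R) = 2 := by omega
    rw [g5] at g1
    omega
  obtain ⟨t, ht1, htq, hF, hm2⟩ := main_count h1 h2 hρ h hQ 3 (by norm_num) hexp 3 hm
  rw [hn] at hF
  obtain ⟨N, hN⟩ : ∃ N, N = Nat.card {d : D // (d : R) ∉ U ∧ ∃ v : V, v ≠ 0 ∧ ρ d v = v} :=
    ⟨_, rfl⟩
  rw [← hN] at hF hm2
  obtain ⟨W, hW⟩ : ∃ W, Nat.card V = W + 1 := ⟨Nat.card V - 1, by omega⟩
  obtain ⟨s, rfl⟩ : ∃ s, t = s + 1 := ⟨t - 1, by omega⟩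
  rw [hW] at hm2 htq hV
  simp only [Nat.add_sub_cancel] at hm2
  have g1 : N * s ≤ 24 * s := Nat.mul_le_mul_right s (by omega)
  have g2 : W ≤ 12 * s := by omega
  have g3 : s ≤ 1 := by
    by_contra hs
    have hs2 : 2 ≤ s := by omega
    nlinarith [mul_le_mul hs2 hs2 (by omega) (by omega)]
  omega

end Pool.Agent.H20.FI
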