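import Pool.Agent.H20.FI.Cnt

/-! CN4: if `|D / U|` is `16` or `64`. -/

open scoped Classical
open FI

namespace Pool.Agent.H20.FI

theorem exp_two {R : Type} [Group R] {U D : Subgroup R} (h : QD U D) {a : R} (ha : a ∈ D) :
    ∀ k : ℕ, a ^ (2 ^ (k + 1)) ∈ U → a ^ 2 ∈ U := by
  intro k
  induction k with
  | zero => intro h1; exact h1
  | succ k ih =>
    intro h1
    apply ih
    have h2 : (a ^ (2 ^ k)) ^ (2 * 2) ∈ U := by
      rw [← pow_mul]
      have e1 : 2 ^ k * (2 * 2) = 2 ^ (k + 1 + 1) := by ring
      rw [e1]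
      exact h1
    have h3 := h.sqf 2 (by norm_num) (a ^ (2 ^ k)) (D.pow_mem ha _) h2
    rw [← pow_mul] at h3
    exact h3

theorem pf_CN4 (h1 : T_FPT) (h2 : T_CST) (h3 : T_LIN) (h4 : T_PRD) : T_CN4 := by
  intro R V K _ _ _ _ _ ρ U D _ _ _ j hρ h hQ hn
  have hexp : ∀ a ∈ D, a ^ 2 ∈ U := by
    intro a ha
    have g1 := pow_relIndex_mem hQ.nU ha
    rcases hn with hn | hn
    · rw [hn] at g1
      exact exp_two hQ ha 3 g1
    · rw [hn] at g1
      exact exp_two hQ ha 5 g1
  have hU2 : 2 ≤ Nat.card U := by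
    refine Nat.le_of_dvd Nat.card_pos (h4 R U D hQ 2 (by norm_num) ?_)
    rcases hn with hn | hn <;> rw [hn] <;> norm_num
  have hUK : Nat.card U + 1 ≤ Nat.card K := by
    have g1 := Nat.card_le_card_of_injective j (j_inj hρ h)
    have g2 := Nat.card_units K
    have g3 : 0 < Nat.card K := Nat.card_pos
    omega
  have hMF : Module.Finite K V := Module.Finite.of_finite
  have hVf := Module.natCard_eq_pow_finrank (K := K) (V := V)
  have hlin := h3 R V K ρ U D j hρ h hQ
  by_contra hcon
  have hm : ∀ x : V, x ≠ 0 → 4 ≤ Nat.card (D ⊓ St ρ x : Subgroup R) := by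
    intro x hx
    have g1 := Dx_dvd hρ h hQ hx
    by_contra g2
    have g3 : Nat.card (D ⊓ St ρ x : Subgroup R) ≠ 3 := by
      intro g4
      rw [g4] at g1
      rcases hn with hn | hn <;> rw [hn] at g1 <;> omega
    exact hcon ⟨x, hx, by omega⟩
  obtain ⟨t, ht1, htq, hF, hm2⟩ := main_count h1 h2 hρ h hQ 2 (by norm_num) hexp 4 hm
  obtain ⟨N, hN⟩ : ∃ N, N = Nat.card {d : D // (d : R) ∉ U ∧ ∃ v : V, v ≠ 0 ∧ ρ d v = v} :=
    ⟨_, rfl⟩
  rw [← hN] at hF hm2
  obtain ⟨W, hW⟩ : ∃ W, Nat.card V = W + 1 := ⟨Nat.card V - 1, by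
    have : 0 < Nat.card V := Nat.card_pos
    omega⟩
  obtain ⟨s, rfl⟩ : ∃ s, t = s + 1 := ⟨t - 1, by omega⟩
  rw [hW] at hm2 htq
  simp only [Nat.add_sub_cancel] at hm2
  rcases hn with hn | hn
  · rw [hn] at hF hlin
    have g1 : N * s ≤ 30 * s := Nat.mul_le_mul_right s (by omega)
    have g2 : W ≤ 10 * s := by omega
    have hf : 4 ≤ Module.finrank K V := by
      by_contra hc
      have g2 : Module.finrank K V ≤ 3 := by omega
      have g3 := Nat.mul_le_mul g2 g2
      omega
    have g3 : 81 ≤ Nat.card V := by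
      rw [hVf]
      calc 81 = 3 ^ 4 := by norm_num
        _ ≤ Nat.card K ^ 4 := Nat.pow_le_pow_left (by omega) 4
        _ ≤ Nat.card K ^ Module.finrank K V := Nat.pow_le_pow_right (by omega) hf
    have g4 : s = 8 := by
      have g5 : s ≤ 8 := by
        by_contra hs
        have hs2 : 9 ≤ s := by omega
        nlinarith
      omega
    subst g4
    have g5 : W = 80 := by omega
    have g6 : 30 ≤ N := by omega
    have g7 : Nat.card K = 3 := by
      by_contra hc
      have g8 : 4 ≤ Nat.card K := by omega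
      have g9 : 256 ≤ Nat.card V := by
        rw [hVf]
        calc 256 = 4 ^ 4 := by norm_num
          _ ≤ Nat.card K ^ 4 := Nat.pow_le_pow_left g8 4
          _ ≤ Nat.card K ^ Module.finrank K V := Nat.pow_le_pow_right (by omega) hf
      omega
    have g8 : Nat.card U = 2 := by omega
    -- every element of `D` outside `U` has a nonzero fixed vector
    have hall : ∀ d ∈ D, d ∉ U → ∃ v : V, v ≠ 0 ∧ ρ d v = v := by
      intro d hd hdU
      by_contra hno
      let _ : Fintype D := Fintype.ofFinite D
      have c1 : Nat.card D = 32 := by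
        have c2 := Subgroup.card_mul_index (U.subgroupOf D)
        have c3 : Nat.card (U.subgroupOf D) = Nat.card U :=
          Nat.card_congr (Subgroup.subgroupOfEquivOfLe hQ.UD).toEquiv
        have c4 : (U.subgroupOf D).index = 16 := hn
        rw [c3, c4, g8] at c2
        omega
      have c5 : (Finset.univ.filter (fun e : D => (e : R) ∈ U)).card = 2 := by
        have c3 : Nat.card (U.subgroupOf D) = Nat.card U :=
          Nat.card_congr (Subgroup.subgroupOfEquivOfLe hQ.UD).toEquiv
        rw [g8] at c3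
        rw [← c3, Nat.card_eq_fintype_card, ← Fintype.card_coe]
        refine Fintype.card_congr
          { toFun := fun e => ⟨e.1, (Finset.mem_filter.1 e.2).2⟩
            invFun := fun e => ⟨e.1, Finset.mem_filter.2 ⟨Finset.mem_univ _, e.2⟩⟩
            left_inv := fun _ => rfl
            right_inv := fun _ => rfl }
      have c6 := Finset.card_filter_add_card_filter_not (s := (Finset.univ : Finset D))
        (fun e : D => (e : R) ∈ U)
      rw [c5, Finset.card_univ, ← Nat.card_eq_fintype_card, c1] at c6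
      have c7 : N = (Finset.univ.filter (fun e : D => (e : R) ∉ U ∧
          ∃ v : V, v ≠ 0 ∧ ρ e v = v)).card := by
        rw [hN, Nat.card_eq_fintype_card, Fintype.card_subtype]
      have c8 : Finset.univ.filter (fun e : D => (e : R) ∉ U ∧ ∃ v : V, v ≠ 0 ∧ ρ e v = v) ⊆
          (Finset.univ.filter (fun e : D => ¬ (e : R) ∈ U)).erase ⟨d, hd⟩ := by
        intro e he
        rw [Finset.mem_filter] at he
        rw [Finset.mem_erase, Finset.mem_filter]
        refine ⟨?_, Finset.mem_univ _, he.2.1⟩
        intro hed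
        apply hno
        have c9 := he.2.2
        rw [hed] at c9
        exact c9
      have c9 := Finset.card_le_card c8
      rw [← c7, Finset.card_erase_of_mem (by
        rw [Finset.mem_filter]; exact ⟨Finset.mem_univ _, hdU⟩)] at c9
      omega
    have hsq : ∀ d ∈ D, d * d = 1 := by
      intro d hd
      by_cases hdU : d ∈ U
      · have g9 : (⟨d, hdU⟩ : U) ^ 2 = 1 := by
          rw [← g8]
          exact pow_card_eq_one'
        have g10 := congrArg Subtype.val g9
        rw [← pow_two]
        exact g10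
      · obtain ⟨v, hv, hv2⟩ := hall d hd hdU
        rw [← pow_two]
        apply fix_U hρ h (hexp d hd) hv
        rw [pow_two, rho_mul, hv2, hv2]
    have hcomm : ∀ a ∈ D, ∀ b ∈ D, a * b = b * a := by
      intro a ha b hb
      have e1 := hsq a ha
      have e2 := hsq b hb
      have e3 := hsq (a * b) (D.mul_mem ha hb)
      have e4 : a⁻¹ = a := inv_eq_of_mul_eq_one_left e1
      have e5 : b⁻¹ = b := inv_eq_of_mul_eq_one_left e2
      have e6 : (a * b)⁻¹ = a * b := inv_eq_of_mul_eq_one_left e3
      rw [← e6, mul_inv_rev, e4, e5]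
    have hDU : D ≤ U := fun a ha => hQ.cen a ha (hcomm a ha)
    have g9 := Subgroup.relIndex_eq_one.2 hDU
    omega
  · rw [hn] at hF hlin
    have g1 : N * s ≤ 126 * s := Nat.mul_le_mul_right s (by omega)
    have g2 : W ≤ 42 * s := by omega
    have hf : 8 ≤ Module.finrank K V := by
      by_contra hc
      have g2 : Module.finrank K V ≤ 7 := by omega
      have g3 := Nat.mul_le_mul g2 g2
      omega
    have g3 : 6561 ≤ Nat.card V := by
      rw [hVf]
      calc 6561 = 3 ^ 8 := by norm_num
        _ ≤ Nat.card K ^ 8 := Nat.pow_le_pow_left (by omega) 8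
        _ ≤ Nat.card K ^ Module.finrank K V := Nat.pow_le_pow_right (by omega) hf
    have g4 : s ≤ 40 := by
      by_contra hs
      have hs2 : 41 ≤ s := by omega
      nlinarith
    omega

end Pool.Agent.H20.FI
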