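import Pool.Agent.H20.FI.Lin

/-! CST: elements with fixed points in a coset of `U`. -/

open scoped Classical
open FI

namespace Pool.Agent.H20.FI

theorem pf_CST : T_CST := by
  intro R V K _ _ _ _ ρ U _ _ _ j hρ h a ha s hs has
  have hj := j_inj hρ h
  let f : {z : U // ∃ v : V, v ≠ 0 ∧ ρ (a * z) v = v} →
      ((Polynomial.nthRoots s (((j ⟨a ^ s, has⟩ : Kˣ) : K))).toFinset) := fun z =>
    ⟨(((j z.1)⁻¹ : Kˣ) : K), by
      obtain ⟨z, v, hv, hz⟩ := z
      rw [Multiset.mem_toFinset, Polynomial.mem_nthRoots hs]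
      have h1 : ρ a v = (((j z)⁻¹ : Kˣ) : K) • v := by
        have e1 : a * z = z * a := (Subgroup.mem_centralizer_iff.1 ha z z.2).symm
        rw [e1, rho_mul, h.act] at hz
        have e2 : (((j z)⁻¹ : Kˣ) : K) • (((j z : Kˣ) : K) • ρ a v) =
            (((j z)⁻¹ : Kˣ) : K) • v := by rw [hz]
        rw [smul_smul, Units.inv_mul, one_smul] at e2
        exact e2
      have h2 := eig_pow h ha h1 s
      have h3 := h.act ⟨a ^ s, has⟩ v
      change ρ (a ^ s) v = _ at h3
      rw [h3] at h2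
      have h4 : ((((j z)⁻¹ : Kˣ) : K) ^ s - ((j ⟨a ^ s, has⟩ : Kˣ) : K)) • v = 0 := by
        rw [sub_smul, ← h2, sub_self]
      rcases smul_eq_zero.1 h4 with h5 | h5
      · exact sub_eq_zero.1 h5
      · exact absurd h5 hv⟩
  have hf : Function.Injective f := by
    intro z z' hzz
    have h1 : (((j z.1)⁻¹ : Kˣ) : K) = (((j z'.1)⁻¹ : Kˣ) : K) := congrArg Subtype.val hzz
    have h2 : (j z.1)⁻¹ = (j z'.1)⁻¹ := Units.ext h1
    exact Subtype.ext (hj (inv_injective h2))
  refine (Nat.card_le_card_of_injective f hf).trans ?_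
  rw [Nat.card_eq_fintype_card, Fintype.card_coe]
  exact (Multiset.toFinset_card_le _).trans (Polynomial.card_nthRoots _ _)

end Pool.Agent.H20.FI
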