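import Pool.Agent.H6.FI.TargetsA

/-! PRD: primes dividing the order of `D / U`. -/

open scoped Classical
open FI

namespace Pool.Agent.H20.FI

theorem exists_comm {R : Type} [Group R] {U D : Subgroup R} (h : QD U D) {q : ℕ} (hq : q.Prime)
    {a : R} (haD : a ∈ D) (haU : a ∉ U) (haq : a ^ q ∈ U) :
    ∃ b ∈ D, a * b * a⁻¹ * b⁻¹ ∈ U ∧ orderOf (a * b * a⁻¹ * b⁻¹) = q := by
  by_contra hcon
  apply haU
  apply h.cen a haD
  intro b hb
  by_contra hab
  apply hcon
  refine ⟨b, hb, h.com a haD b hb, ?_⟩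
  obtain ⟨z, hz⟩ : ∃ z, z = a * b * a⁻¹ * b⁻¹ := ⟨_, rfl⟩
  have hzU : z ∈ U := by rw [hz]; exact h.com a haD b hb
  rw [← hz]
  have hqF : Fact q.Prime := ⟨hq⟩
  apply orderOf_eq_prime
  · have hac := h.DC haD
    have hbc := h.DC hb
    have hza : z * a = a * z := Subgroup.mem_centralizer_iff.1 hac z hzU
    have e1 : ∀ n : ℕ, a ^ n * b = z ^ n * b * a ^ n := by
      intro n
      induction n with
      | zero => simp
      | succ n ih =>
        have e2 : a * b = z * b * a := by rw [hz]; group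
        have e3 : Commute a (z ^ n) := (Commute.pow_left (show Commute z a from hza) n).symm
        calc a ^ (n + 1) * b = a * (a ^ n * b) := by rw [pow_succ', mul_assoc]
          _ = a * (z ^ n * b * a ^ n) := by rw [ih]
          _ = (a * z ^ n) * b * a ^ n := by simp only [mul_assoc]
          _ = (z ^ n * a) * b * a ^ n := by rw [e3.eq]
          _ = z ^ n * (a * b) * a ^ n := by simp only [mul_assoc]
          _ = z ^ n * (z * b * a) * a ^ n := by rw [e2]
          _ = z ^ (n + 1) * b * a ^ (n + 1) := by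
            rw [pow_succ z, pow_succ' a]; simp only [mul_assoc]
    have e4 : a ^ q * b = b * a ^ q := Subgroup.mem_centralizer_iff.1 hbc _ haq
    have e5 := e1 q
    rw [e4, mul_assoc] at e5
    have e6 : b * a ^ q = z ^ q * (b * a ^ q) := e5
    exact (mul_eq_right.1 e6.symm)
  · intro h1
    apply hab
    have e2 : a * b = z * b * a := by rw [hz]; group
    rw [e2, h1, one_mul]

theorem pf_PRD : T_PRD := by
  intro R _ _ U D h q hq hdvd
  have hqF : Fact q.Prime := ⟨hq⟩
  have hnU := h.nU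
  have hnUD : (U.subgroupOf D).Normal := Subgroup.normal_subgroupOf
  have h1 : q ∣ Nat.card (D ⧸ U.subgroupOf D) := hdvd
  obtain ⟨x, hx⟩ := exists_prime_orderOf_dvd_card' q h1
  obtain ⟨a, rfl⟩ := QuotientGroup.mk_surjective x
  have haU : (a : R) ∉ U := by
    intro h2
    have h3 : (a : D ⧸ U.subgroupOf D) = 1 := (QuotientGroup.eq_one_iff a).2 h2
    rw [h3, orderOf_one] at hx
    exact hq.one_lt.ne hx
  have haq : (a : R) ^ q ∈ U := by
    have h2 : (a : D ⧸ U.subgroupOf D) ^ q = 1 := by rw [← hx]; exact pow_orderOf_eq_one _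
    rw [← QuotientGroup.mk_pow] at h2
    exact (QuotientGroup.eq_one_iff (a ^ q)).1 h2
  obtain ⟨b, hb, hz, ho⟩ := exists_comm h hq a.2 haU haq
  rw [← ho]
  have h3 : orderOf (⟨_, hz⟩ : U) ∣ Nat.card U := orderOf_dvd_natCard _
  rwa [← Subgroup.orderOf_coe] at h3

end Pool.Agent.H20.FI
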