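import Pool.Agent.H20.FI.Lin
import Pool.Agent.H20.FI.PRD

/-! MP_7500ea_al: the counting argument for the rows CN3, CN4. -/

open scoped Classical
open FI

namespace Pool.Agent.H20.FI

theorem card_Dx {R V : Type} [Group R] [AddCommGroup V] (ρ : R →* AddMonoid.End V)
    (D : Subgroup R) (x : V) :
    Nat.card (D ⊓ St ρ x : Subgroup R) = Nat.card {d : D // ρ d x = x} :=
  Nat.card_congr
    { toFun := fun r => ⟨⟨r.1, r.2.1⟩, r.2.2⟩
      invFun := fun d => ⟨d.1.1, d.1.2, d.2⟩
      left_inv := fun _ => rfl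
      right_inv := fun _ => rfl }

theorem Dx_dvd {R V K : Type} [Group R] [AddCommGroup V] [Field K] [Module K V]
    {ρ : R →* AddMonoid.End V} {U D : Subgroup R} {j : U →* Kˣ} (hρ : Function.Injective ρ)
    (h : KSt ρ U j) (hQ : QD U D) {x : V} (hx : x ≠ 0) :
    Nat.card (D ⊓ St ρ x : Subgroup R) ∣ U.relIndex D := by
  have hnU := hQ.nU
  have hnUD : (U.subgroupOf D).Normal := Subgroup.normal_subgroupOf
  have h1 : U.relIndex (D ⊓ St ρ x) = Nat.card (D ⊓ St ρ x : Subgroup R) := by
    have h2 : U.subgroupOf (D ⊓ St ρ x) = ⊥ := by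
      rw [Subgroup.subgroupOf_eq_bot, Subgroup.disjoint_def]
      intro z hz hz2
      exact fix_U hρ h hz hx hz2.2
    unfold Subgroup.relIndex
    rw [h2, Subgroup.index_bot]
  rw [← h1, ← Subgroup.relIndex_subgroupOf (H := U) (inf_le_left : D ⊓ St ρ x ≤ D)]
  exact Subgroup.relIndex_dvd_index_of_normal _ _

theorem pow_relIndex_mem {R : Type} [Group R] {U D : Subgroup R} (hU : U.Normal) {a : R}
    (ha : a ∈ D) : a ^ (U.relIndex D) ∈ U := by
  have hnUD : (U.subgroupOf D).Normal := Subgroup.normal_subgroupOf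
  have h1 : ((⟨a, ha⟩ : D) : D ⧸ U.subgroupOf D) ^ (U.relIndex D) = 1 := pow_card_eq_one'
  rw [← QuotientGroup.mk_pow] at h1
  exact (QuotientGroup.eq_one_iff (⟨a, ha⟩ ^ (U.relIndex D) : D)).1 h1

theorem main_count (h1 : T_FPT) (h2 : T_CST) {R V K : Type} [Group R] [Finite R]
    [AddCommGroup V] [Finite V] [Field K] [Finite K] [Module K V]
    {ρ : R →* AddMonoid.End V} {U D : Subgroup R} {j : U →* Kˣ} (hρ : Function.Injective ρ)
    (h : KSt ρ U j) (hQ : QD U D) (q : ℕ) (hq : q.Prime) (hexp : ∀ a ∈ D, a ^ q ∈ U) (m : ℕ)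
    (hm : ∀ x : V, x ≠ 0 → m ≤ Nat.card (D ⊓ St ρ x : Subgroup R)) :
    ∃ t : ℕ, 1 ≤ t ∧ t ^ q ≤ Nat.card V ∧
      Nat.card {d : D // (d : R) ∉ U ∧ ∃ v : V, v ≠ 0 ∧ ρ d v = v} ≤ q * (U.relIndex D - 1) ∧
      m * (Nat.card V - 1) ≤ (Nat.card V - 1) +
        Nat.card {d : D // (d : R) ∉ U ∧ ∃ v : V, v ≠ 0 ∧ ρ d v = v} * (t - 1) := by
  have hnU := hQ.nU
  have hnUD : (U.subgroupOf D).Normal := Subgroup.normal_subgroupOf
  let _ : Fintype R := Fintype.ofFinite R
  let _ : Fintype V := Fintype.ofFinite V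
  let _ : Fintype D := Fintype.ofFinite D
  have hVpos : 1 ≤ Nat.card V := Nat.card_pos
  refine ⟨Nat.findGreatest (fun t => t ^ q ≤ Nat.card V) (Nat.card V), ?_, ?_, ?_, ?_⟩
  · exact Nat.le_findGreatest hVpos (by rw [one_pow]; exact hVpos)
  · exact Nat.findGreatest_spec (P := fun t => t ^ q ≤ Nat.card V) hVpos
      (by rw [one_pow]; exact hVpos)
  · obtain ⟨F, hF⟩ : ∃ F : Finset D, F = Finset.univ.filter (fun d : D => (d : R) ∉ U ∧
        ∃ v : V, v ≠ 0 ∧ ρ d v = v) := ⟨_, rfl⟩
    have hFc : Nat.card {d : D // (d : R) ∉ U ∧ ∃ v : V, v ≠ 0 ∧ ρ d v = v} = F.card := by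
      rw [Nat.card_eq_fintype_card, Fintype.card_subtype, hF]
    rw [hFc]
    let _ : Fintype (D ⧸ U.subgroupOf D) := Fintype.ofFinite _
    let f : D → D ⧸ U.subgroupOf D := fun d => d
    have g1 : F.card ≤ q * (F.image f).card := by
      apply Finset.card_le_mul_card_image
      intro c hc
      rw [Finset.mem_image] at hc
      obtain ⟨a, ha, rfl⟩ := hc
      rw [hF, Finset.mem_filter] at ha
      obtain ⟨-, haU, -⟩ := ha
      have g2 := h2 R V K ρ U j hρ h a (hQ.DC a.2) q hq.pos (hexp a a.2)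
      refine le_trans ?_ g2
      have hmem : ∀ d : D, d ∈ F.filter (fun d => f d = f a) → (a : R)⁻¹ * (d : R) ∈ U := by
        intro d hd
        rw [Finset.mem_filter] at hd
        have hd2 : (a : D ⧸ U.subgroupOf D) = (d : D ⧸ U.subgroupOf D) := hd.2.symm
        have hd3 : a⁻¹ * d ∈ U.subgroupOf D := QuotientGroup.eq.1 hd2
        exact hd3
      have hfix : ∀ d : D, d ∈ F.filter (fun d => f d = f a) → ∃ v : V, v ≠ 0 ∧ ρ d v = v := by
        intro d hd
        rw [Finset.mem_filter, hF, Finset.mem_filter] at hd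
        exact hd.1.2.2
      have g3 : (F.filter (fun d => f d = f a)).card =
          Nat.card {d : D // d ∈ F.filter (fun d => f d = f a)} := by
        rw [Nat.card_eq_fintype_card, Fintype.card_coe]
      rw [g3]
      refine Nat.card_le_card_of_injective (fun d => ⟨⟨(a : R)⁻¹ * (d.1 : R), hmem d.1 d.2⟩, ?_⟩) ?_
      · obtain ⟨v, hv, hv2⟩ := hfix d.1 d.2
        refine ⟨v, hv, ?_⟩
        change ρ ((a : R) * ((a : R)⁻¹ * (d.1 : R))) v = v
        rw [mul_inv_cancel_left]
        exact hv2
      · intro d d' hdd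
        have e1 : (a : R)⁻¹ * (d.1 : R) = (a : R)⁻¹ * (d'.1 : R) :=
          congrArg (fun z => ((Subtype.val z : U) : R)) hdd
        exact Subtype.ext (Subtype.ext (mul_left_cancel e1))
    have g2 : (F.image f).card ≤ U.relIndex D - 1 := by
      have g3 : F.image f ⊆ Finset.univ.erase 1 := by
        intro c hc
        rw [Finset.mem_image] at hc
        obtain ⟨a, ha, rfl⟩ := hc
        rw [hF, Finset.mem_filter] at ha
        rw [Finset.mem_erase]
        refine ⟨?_, Finset.mem_univ _⟩
        intro hc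
        exact ha.2.1 ((QuotientGroup.eq_one_iff a).1 hc)
      have g4 := Finset.card_le_card g3
      rw [Finset.card_erase_of_mem (Finset.mem_univ _), Finset.card_univ] at g4
      have g5 : U.relIndex D = Fintype.card (D ⧸ U.subgroupOf D) := by
        unfold Subgroup.relIndex
        exact Nat.card_eq_fintype_card
      rw [g5]
      exact g4
    exact g1.trans (Nat.mul_le_mul_left q g2)
  · obtain ⟨T, hT⟩ : ∃ T, T = Nat.findGreatest (fun t => t ^ q ≤ Nat.card V) (Nat.card V) :=
      ⟨_, rfl⟩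
    rw [← hT]
    have hTle : ∀ d : D, (d : R) ∉ U → Nat.card {v : V // ρ d v = v} ≤ T := by
      intro d hd
      obtain ⟨b, hb, hz, ho⟩ := exists_comm hQ hq d.2 hd (hexp d d.2)
      have g1 := h1 R V K ρ U j hρ hnU h d (hQ.DC d.2) b (hQ.DC hb) q hq hz ho
      rw [hT]
      refine Nat.le_findGreatest ?_ g1
      exact Nat.card_le_card_of_injective Subtype.val Subtype.val_injective
    have dc := Finset.sum_card_bipartiteAbove_eq_sum_card_bipartiteBelow
      (s := (Finset.univ : Finset D)) (t := (Finset.univ.erase (0 : V)))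
      (fun (d : D) (x : V) => ρ d x = x)
    have hVc : (Finset.univ.erase (0 : V)).card = Nat.card V - 1 := by
      rw [Finset.card_erase_of_mem (Finset.mem_univ _), Finset.card_univ,
        Nat.card_eq_fintype_card]
    have lower : m * (Nat.card V - 1) ≤ ∑ x ∈ Finset.univ.erase (0 : V),
        (Finset.bipartiteBelow (fun (d : D) (x : V) => ρ d x = x) Finset.univ x).card := by
      rw [← hVc, mul_comm, ← smul_eq_mul]
      apply Finset.card_nsmul_le_sum
      intro x hx
      have hx0 : x ≠ 0 := (Finset.mem_erase.1 hx).1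
      have g1 := hm x hx0
      rw [card_Dx, Nat.card_eq_fintype_card, Fintype.card_subtype] at g1
      exact g1
    have upper : ∑ d ∈ (Finset.univ : Finset D),
        (Finset.bipartiteAbove (fun (d : D) (x : V) => ρ d x = x)
          (Finset.univ.erase (0 : V)) d).card ≤ ∑ d ∈ (Finset.univ : Finset D),
        ((if d = 1 then (Nat.card V - 1) else 0) +
          (if ((d : R) ∉ U ∧ ∃ v : V, v ≠ 0 ∧ ρ d v = v) then (T - 1) else 0)) := by
      apply Finset.sum_le_sum
      intro d _
      by_cases hd1 : d = 1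
      · rw [if_pos hd1, ← hVc]
        exact le_trans (Finset.card_le_card (Finset.filter_subset _ _)) (Nat.le_add_right _ _)
      · rw [if_neg hd1, zero_add]
        by_cases hdF : (d : R) ∉ U ∧ ∃ v : V, v ≠ 0 ∧ ρ d v = v
        · rw [if_pos hdF]
          have g1 : Finset.bipartiteAbove (fun (d : D) (x : V) => ρ d x = x)
              (Finset.univ.erase (0 : V)) d =
              (Finset.univ.filter (fun x : V => ρ d x = x)).erase 0 := by
            ext x
            unfold Finset.bipartiteAbove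
            simp only [Finset.mem_filter, Finset.mem_erase, Finset.mem_univ, and_true, true_and]
          rw [g1, Finset.card_erase_of_mem (by
            rw [Finset.mem_filter]; exact ⟨Finset.mem_univ _, map_zero _⟩)]
          have g2 := hTle d hdF.1
          rw [Nat.card_eq_fintype_card, Fintype.card_subtype] at g2
          exact Nat.sub_le_sub_right g2 1
        · rw [if_neg hdF]
          rw [Nat.le_zero, Finset.card_eq_zero, Finset.eq_empty_iff_forall_notMem]
          intro x hx
          unfold Finset.bipartiteAbove at hx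
          rw [Finset.mem_filter, Finset.mem_erase] at hx
          obtain ⟨⟨hx0, -⟩, hx2⟩ := hx
          by_cases hdU : (d : R) ∈ U
          · exact hd1 (Subtype.ext (fix_U hρ h hdU hx0 hx2))
          · exact hdF ⟨hdU, x, hx0, hx2⟩
    rw [dc] at upper
    refine lower.trans (upper.trans ?_)
    rw [Finset.sum_add_distrib, Finset.sum_ite_eq' Finset.univ (1 : D),
      if_pos (Finset.mem_univ _), ← Finset.sum_filter, Finset.sum_const, smul_eq_mul,
      Nat.card_eq_fintype_card (α := {d : D // (d : R) ∉ U ∧ ∃ v : V, v ≠ 0 ∧ ρ d v = v}),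
      Fintype.card_subtype]

end Pool.Agent.H20.FI
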