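import Pool.Agent.H20.FI.Lin

/-! FPT: fixed points of non-central elements. -/

open scoped Classical
open FI

namespace Pool.Agent.H20.FI

theorem pf_FPT : T_FPT := by
  intro R V K _ _ _ _ ρ U _ _ _ j hρ hU h a ha b hb q hq hz hord
  have hj := j_inj hρ h
  obtain ⟨z, hzdef⟩ : ∃ z : U, (z : R) = a * b * a⁻¹ * b⁻¹ := ⟨⟨_, hz⟩, rfl⟩
  have hzo : orderOf (j z) = q := by
    rw [orderOf_injective j hj, ← Subgroup.orderOf_coe, hzdef, hord]
  have hab : a * b = z * (b * a) := by
    rw [hzdef]; group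
  obtain ⟨k, hk⟩ : ∃ k : K, k = ((j z : Kˣ) : K) := ⟨_, rfl⟩
  have hbp : ∀ i : ℕ, b ^ i ∈ Subgroup.centralizer (U : Set R) := fun i => pow_mem hb i
  have step : ∀ (m : K) (v : V), ρ a v = m • v → ρ a (ρ b v) = (k * m) • ρ b v := by
    intro m v hv
    rw [← rho_mul, hab, rho_mul, h.act, rho_mul, hv, rho_smul h hb, smul_smul, hk]
  have step' : ∀ (i : ℕ) (v : V), ρ a v = v → ρ a (ρ (b ^ i) v) = k ^ i • ρ (b ^ i) v := by
    intro i v hv
    induction i with
    | zero => rw [pow_zero, pow_zero, one_smul, rho_one, hv]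
    | succ i ih => rw [pow_succ' b, rho_mul, step _ _ ih, ← pow_succ']
  have hkinj : Function.Injective (fun i : Fin q => k ^ (i : ℕ)) := by
    intro i i' hii
    have h1 : (j z) ^ (i : ℕ) = (j z) ^ (i' : ℕ) := by
      apply Units.ext
      rw [Units.val_pow_eq_pow_val, Units.val_pow_eq_pow_val, ← hk]
      exact hii
    have h2 := pow_injOn_Iio_orderOf (x := j z) (by rw [hzo]; exact i.2) (by rw [hzo]; exact i'.2) h1
    exact Fin.ext h2
  have hind := (Module.End.eigenspaces_iSupIndep (lin h ha)).comp hkinj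
  rw [iSupIndep_iff_finsetSum_eq_imp_eq] at hind
  let F : (Fin q → {v : V // ρ a v = v}) → V := fun w => ∑ i : Fin q, ρ (b ^ (i : ℕ)) (w i)
  have hF : Function.Injective F := by
    intro w w' hww
    have h1 := hind Finset.univ (fun i => ρ (b ^ (i : ℕ)) (w i)) (fun i => ρ (b ^ (i : ℕ)) (w' i))
      (by
        intro i _
        constructor
        · exact Module.End.mem_eigenspace_iff.2 (step' i _ (w i).2)
        · exact Module.End.mem_eigenspace_iff.2 (step' i _ (w' i).2)) hww
    funext i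
    exact Subtype.ext (rho_inj_of ρ _ (h1 i (Finset.mem_univ i)))
  have h1 := Nat.card_le_card_of_injective F hF
  rw [Nat.card_fun, Nat.card_fin] at h1
  exact h1

end Pool.Agent.H20.FI
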