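import Pool.Agent.H6.FI.TargetsA

/-! MP_7500ea_al: common facts for the rows FPT, CST, CN3, CN4. -/

open scoped Classical
open FI

namespace Pool.Agent.H20.FI

variable {R V K : Type} [Group R] [AddCommGroup V] [Field K] [Module K V]
  {ρ : R →* AddMonoid.End V} {U : Subgroup R} {j : U →* Kˣ}

theorem rho_mul (ρ : R →* AddMonoid.End V) (a b : R) (v : V) : ρ (a * b) v = ρ a (ρ b v) := by
  rw [map_mul, AddMonoid.End.coe_mul, Function.comp_apply]

theorem rho_one (ρ : R →* AddMonoid.End V) (v : V) : ρ 1 v = v := by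
  rw [map_one]; rfl

theorem rho_inj_of (ρ : R →* AddMonoid.End V) (a : R) : Function.Injective (ρ a) := by
  intro v w h
  have h1 : ρ a⁻¹ (ρ a v) = ρ a⁻¹ (ρ a w) := by rw [h]
  rw [← rho_mul, ← rho_mul, inv_mul_cancel, rho_one, rho_one] at h1
  exact h1

theorem rho_smul (h : KSt ρ U j) {a : R} (ha : a ∈ Subgroup.centralizer (U : Set R)) (k : K)
    (v : V) : ρ a (k • v) = k • ρ a v := by
  have hk : k ∈ Subring.closure (Set.range fun z : U => ((j z : Kˣ) : K)) := by
    rw [h.gen]; trivial
  induction hk using Subring.closure_induction generalizing v with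
  | mem x hx =>
    obtain ⟨z, rfl⟩ := hx
    have h1 := Subgroup.mem_centralizer_iff.1 ha z z.2
    change ρ a (((j z : Kˣ) : K) • v) = ((j z : Kˣ) : K) • ρ a v
    rw [← h.act z v, ← h.act z (ρ a v), ← rho_mul, ← rho_mul, h1]
  | zero => rw [zero_smul, zero_smul, map_zero]
  | one => rw [one_smul, one_smul]
  | add x y _ _ hx hy => rw [add_smul, add_smul, map_add, hx, hy]
  | neg x _ hx => rw [neg_smul, neg_smul, map_neg, hx]
  | mul x y _ _ hx hy => rw [mul_smul, mul_smul, hx, hy]

/-- the `K`-linear map of an element which centralises `U` -/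
def lin (h : KSt ρ U j) {a : R} (ha : a ∈ Subgroup.centralizer (U : Set R)) :
    Module.End K V where
  toFun := ρ a
  map_add' := map_add _
  map_smul' := fun k v => rho_smul h ha k v

theorem j_inj (hρ : Function.Injective ρ) (h : KSt ρ U j) : Function.Injective j := by
  intro z z' hz
  apply Subtype.ext
  apply hρ
  ext v
  rw [h.act z v, h.act z' v, hz]

theorem eig_pow (h : KSt ρ U j) {a : R} (ha : a ∈ Subgroup.centralizer (U : Set R)) {k : K}
    {v : V} (hv : ρ a v = k • v) (s : ℕ) : ρ (a ^ s) v = k ^ s • v := by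
  induction s with
  | zero => rw [pow_zero, pow_zero, one_smul, rho_one]
  | succ s ih => rw [pow_succ', rho_mul, ih, rho_smul h ha, hv, smul_smul, pow_succ]

/-- the elements of `U` have no nonzero fixed vector -/
theorem fix_U (hρ : Function.Injective ρ) (h : KSt ρ U j) {z : R} (hz : z ∈ U) {v : V}
    (hv : v ≠ 0) (hf : ρ z v = v) : z = 1 := by
  have h1 := h.act ⟨z, hz⟩ v
  change ρ z v = _ at h1
  rw [hf] at h1
  have h2 : (((j ⟨z, hz⟩ : Kˣ) : K) - 1) • v = 0 := by
    rw [sub_smul, one_smul, ← h1, sub_self]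
  rcases smul_eq_zero.1 h2 with h3 | h3
  · have h4 : j ⟨z, hz⟩ = 1 := Units.ext (sub_eq_zero.1 h3)
    have h5 : (⟨z, hz⟩ : U) = 1 := j_inj hρ h (by rw [h4, map_one])
    exact congrArg Subtype.val h5
  · exact absurd h3 hv

end Pool.Agent.H20.FI
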